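import Mathlib

namespace Pool.Agent.H.MP_888150_co

open Finset

def Cut (m : ℕ) (h : ℕ → ℕ) (t : ℕ) : Prop :=
  (∀ i, i < t → i + h i < t) ∧ (∀ i, t ≤ i → i < m → t + h i ≤ i)

def W (h : ℕ → ℕ) (t : ℕ) : ℕ := ∑ i ∈ range t, (h i + 1)

def Hr (h f : ℕ → ℕ) (i x : ℕ) : Prop := 0 < f x ∧ i + h i ≤ x + f x ∧ x + h i ≤ i + f x

def One (m : ℕ) (h f : ℕ → ℕ) (i : ℕ) : Prop := ∃ x, x < m ∧ Hr h f i x

def Two (m : ℕ) (h f : ℕ → ℕ) (i : ℕ) : Prop :=
  ∃ x y, x < m ∧ y < m ∧ x ≠ y ∧ Hr h f i x ∧ Hr h f i y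

lemma gap {m : ℕ} {h : ℕ → ℕ} {t s : ℕ} (ht : Cut m h t) (hs : Cut m h s) (hts : t < s)
    (hno : ∀ j, t < j → j < s → ¬ Cut m h j) : 2 * W h t + 3 * s ≤ 2 * W h s + 3 * t + 1 := by
  have h1 : Ioo t s ⊆ (Ico t s).biUnion (fun i => Ioc (i - h i) (i + h i)) := by
    intro j hj
    rw [mem_Ioo] at hj
    have := hno j hj.1 hj.2
    unfold Cut at this
    rw [not_and_or] at this
    rw [mem_biUnion]
    rcases this with h2 | h2
    · push Not at h2
      obtain ⟨i, hi, hi2⟩ := h2
      refine ⟨i, ?_, ?_⟩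
      · rw [mem_Ico]
        constructor
        · by_contra hc
          have := ht.1 i (by omega)
          omega
        · omega
      · rw [mem_Ioc]; omega
    · push Not at h2
      obtain ⟨i, hi, hi2, hi3⟩ := h2
      refine ⟨i, ?_, ?_⟩
      · rw [mem_Ico]
        constructor
        · omega
        · by_contra hc
          have := hs.2 i (by omega) hi2
          omega
      · rw [mem_Ioc]; omega
  have h2 := (card_le_card h1).trans card_biUnion_le
  have h3 : ∑ i ∈ Ico t s, (Ioc (i - h i) (i + h i)).card ≤ ∑ i ∈ Ico t s, 2 * h i := by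
    apply sum_le_sum
    intro i _
    rw [Nat.card_Ioc]; omega
  rw [← mul_sum] at h3
  rw [Nat.card_Ioo] at h2
  have h4 : W h t + ∑ i ∈ Ico t s, (h i + 1) = W h s := sum_range_add_sum_Ico _ hts.le
  rw [sum_add_distrib, sum_const, Nat.card_Ico, smul_eq_mul, mul_one] at h4
  omega

lemma cut_zero {m : ℕ} {h : ℕ → ℕ} (hh : ∀ i, i < m → h i ≤ i ∧ i + h i < m) : Cut m h 0 :=
  ⟨fun i hi => absurd hi (by omega), fun i _ hi => by have := (hh i hi).1; omega⟩

lemma blocks {m : ℕ} {h : ℕ → ℕ} (hh : ∀ i, i < m → h i ≤ i ∧ i + h i < m) (t : ℕ) :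
    Cut m h t → ∃ (N : ℕ) (c : ℕ → ℕ), c 0 = 0 ∧ (∀ j, j ≤ N → c j % 2 = j % 2) ∧
      (∀ j, j < N → c j < c (j + 1)) ∧ (∀ j, j ≤ N → Cut m h (c j)) ∧ c N ≤ t ∧
      t % 2 = N % 2 ∧ 3 * t ≤ 2 * W h t + N := by
  classical
  induction t using Nat.strong_induction_on with
  | _ t ih =>
  intro ht
  rcases Nat.eq_zero_or_pos t with rfl | hpos
  · refine ⟨0, fun _ => 0, rfl, ?_, ?_, ?_, le_rfl, rfl, by omega⟩
    · intro j hj
      show 0 % 2 = j % 2
      omega
    · intro j hj; omega
    · intro j _; exact ht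
  · set s := Nat.findGreatest (Cut m h) (t - 1) with hs
    have hs1 : Cut m h s := Nat.findGreatest_spec (Nat.zero_le _) (cut_zero hh)
    have hs2 : s ≤ t - 1 := Nat.findGreatest_le _
    have hg := gap hs1 ht (by omega) (fun j hj1 hj2 =>
      Nat.findGreatest_is_greatest (by omega) (by omega))
    obtain ⟨N, c, c0, c1, c2, c3, c4, c5, c6⟩ := ih s (by omega) hs1
    by_cases hp : t % 2 = N % 2
    · exact ⟨N, c, c0, c1, c2, c3, by omega, hp, by omega⟩
    · refine ⟨N + 1, fun j => if j ≤ N then c j else t, by simp [c0], ?_, ?_, ?_, ?_, by omega,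
        by omega⟩
      · intro j hj
        by_cases hj2 : j ≤ N
        · simp only [hj2, if_true]; exact c1 j hj2
        · simp only [hj2, if_false]; omega
      · intro j hj
        have hj1 : j ≤ N := by omega
        by_cases hj2 : j + 1 ≤ N
        · simp only [hj1, hj2, if_true]; exact c2 j (by omega)
        · simp only [hj1, hj2, if_true, if_false]
          have : j = N := by omega
          subst this; omega
      · intro j hj
        by_cases hj2 : j ≤ N
        · simp only [hj2, if_true]; exact c3 j hj2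
        · simp only [hj2, if_false]; exact ht
      · have : ¬ (N + 1 ≤ N) := by omega
        simp only [this, if_false]; exact le_rfl

lemma add {m : ℕ} {h f : ℕ → ℕ} {lo mid hi x r : ℕ} (hlo : Cut m h lo) (hhi : Cut m h hi)
    (hm : hi ≤ m) (h1 : lo ≤ mid) (h2 : mid ≤ hi) (hx : x < m) (hr : 0 < r) (hf : f x = 0)
    (a1 : x ≤ lo + r) (a2 : hi ≤ x + r + 1)
    (t2 : ∀ i, i < lo → Two m h f i) (t1 : ∀ i, i < mid → One m h f i) :
    ∃ g : ℕ → ℕ, (∀ y, 0 < g y → 0 < f y ∨ y = x) ∧ (∀ i, i < mid → Two m h g i) ∧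
      (∀ i, i < hi → One m h g i) ∧ ∑ y ∈ range m, g y = ∑ y ∈ range m, f y + r := by
  have mono : ∀ i y, Hr h f i y → Hr h (fun y => f y + if y = x then r else 0) i y := by
    intro i y ⟨p, q, w⟩
    refine ⟨?_, ?_, ?_⟩ <;> simp only <;> omega
  have new : ∀ i, lo ≤ i → i < hi → Hr h (fun y => f y + if y = x then r else 0) i x := by
    intro i p q
    have := hlo.2 i p (by omega)
    have := hhi.1 i q
    refine ⟨?_, ?_, ?_⟩ <;> simp only [if_true] <;> omega
  refine ⟨fun y => f y + if y = x then r else 0, ?_, ?_, ?_, ?_⟩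
  · intro y hy
    by_cases e : y = x
    · exact Or.inr e
    · simp only [e, if_false] at hy
      left; omega
  · intro i hi1
    by_cases e : i < lo
    · obtain ⟨y, z, p, q, w, u, v⟩ := t2 i e
      exact ⟨y, z, p, q, w, mono _ _ u, mono _ _ v⟩
    · obtain ⟨y, p, q⟩ := t1 i hi1
      refine ⟨y, x, p, hx, ?_, mono _ _ q, new i (by omega) (by omega)⟩
      rintro rfl
      have := q.1
      omega
  · intro i hi1
    by_cases e : i < mid
    · obtain ⟨y, p, q⟩ := t1 i e
      exact ⟨y, p, mono _ _ q⟩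
    · exact ⟨x, hx, new i (by omega) hi1⟩
  · rw [sum_add_distrib, sum_ite_eq' (range m) x (fun _ => r), if_pos (mem_range.mpr hx)]

lemma stag {m N : ℕ} {h c : ℕ → ℕ} (c0 : c 0 = 0) (c1 : ∀ j, j ≤ N → c j % 2 = j % 2)
    (c2 : ∀ i j, i < j → j ≤ N → c i < c j) (c3 : ∀ j, j ≤ N → Cut m h (c j)) (c4 : c N = m)
    (b : ℕ) : ∀ a, a < b → b ≤ a + 2 → b ≤ N → (a + b) % 3 ≠ 0 →
      ∃ f : ℕ → ℕ, (∀ x, 0 < f x → 2 * x + 1 ≤ c (b - 3) + c b) ∧ (∀ i, i < c a → Two m h f i) ∧
        (∀ i, i < c b → One m h f i) ∧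
        6 * ∑ y ∈ range m, f y + (a + b) ≤ 3 * (c a + c b) + 4 := by
  have le : ∀ i j, i ≤ j → j ≤ N → c i ≤ c j := by
    intro i j p q
    rcases p.eq_or_lt with rfl | p
    · exact le_rfl
    · exact (c2 i j p q).le
  induction b using Nat.strong_induction_on with
  | _ b ih =>
  intro a h1 h2 h3 h4
  have hb := le b N h3 le_rfl
  have pb := c1 b h3
  by_cases hb3 : b < 3
  · have ha : a = 0 := by omega
    subst ha
    have hpos := c2 0 b h1 h3
    have e : b - 3 = 0 := by omega
    rw [e]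
    obtain ⟨g, g1, g2, g3, g4⟩ := add (f := fun _ => 0) (lo := c 0) (mid := c 0) (hi := c b)
      (x := (c b - 1) / 2) (r := max 1 (c b / 2)) (c3 0 (by omega)) (c3 b h3) (by omega) le_rfl
      (by omega) (by omega) (by omega) rfl (by omega) (by omega)
      (fun i hi => absurd hi (by omega)) (fun i hi => absurd hi (by omega))
    refine ⟨g, ?_, g2, g3, ?_⟩
    · intro x hx
      rcases g1 x hx with p | p
      · omega
      · omega
    · rw [g4]; simp only [sum_const_zero]; omega
  · obtain ⟨f, f1, f2, f3, f4⟩ := ih a h1 (b - 3) (by omega) (by omega) (by omega) (by omega)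
    have p1 := c1 (b - 3) (by omega)
    have p2 := c2 (b - 3) a (by omega) (by omega)
    have p3 := c2 a b h1 h3
    have p4 := le (a - 3) (b - 3) (by omega) (by omega)
    obtain ⟨g, g1, g2, g3, g4⟩ := add (f := f) (lo := c (b - 3)) (mid := c a) (hi := c b)
      (x := (c (b - 3) + c b) / 2) (r := (c b - c (b - 3)) / 2) (c3 _ (by omega)) (c3 b h3)
      (by omega) (by omega) (by omega) (by omega) (by omega)
      (by by_contra hc; have := f1 _ (Nat.pos_of_ne_zero hc); omega) (by omega) (by omega) f2 f3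
    refine ⟨g, ?_, g2, g3, ?_⟩
    · intro x hx
      rcases g1 x hx with p | p
      · have := f1 x p; omega
      · omega
    · rw [g4]; omega

lemma line {m : ℕ} {h : ℕ → ℕ} (hm : 2 ≤ m) (hh : ∀ i, i < m → h i ≤ i ∧ i + h i < m) :
    ∃ f : ℕ → ℕ, (∀ i, i < m → Two m h f i) ∧ 3 * ∑ y ∈ range m, f y ≤ 2 * W h m + 4 := by
  have cm : Cut m h m := ⟨fun i hi => (hh i hi).2, fun i p q => absurd q (by omega)⟩
  obtain ⟨N, c, c0, c1, c2, c3, c4, c5, c6⟩ := blocks hh m cm
  by_cases hN : N ≤ 4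
  · obtain ⟨f, f1, -, f3, f4⟩ := add (f := fun _ => 0) (lo := 0) (mid := 0) (hi := m)
      (x := m / 2) (r := m / 2) (cut_zero hh) cm le_rfl le_rfl
      (by omega) (by omega) (by omega) rfl (by omega) (by omega)
      (fun i hi => absurd hi (by omega)) (fun i hi => absurd hi (by omega))
    obtain ⟨g, -, g2, -, g4⟩ := add (f := f) (lo := 0) (mid := m) (hi := m)
      (x := m / 2 - 1) (r := m - m / 2) (cut_zero hh) cm le_rfl (by omega)
      le_rfl (by omega) (by omega)
      (by by_contra hc; rcases f1 _ (Nat.pos_of_ne_zero hc) with p | p <;> omega)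
      (by omega) (by omega) (fun i hi => absurd hi (by omega)) f3
    refine ⟨g, g2, ?_⟩
    rw [g4, f4]; simp only [sum_const_zero]; omega
  · set d : ℕ → ℕ := fun j => if j < N then c j else m with hd
    have mono : ∀ j i, i < j → j ≤ N → c i < c j := by
      intro j
      induction j with
      | zero => intro i p; omega
      | succ j ih =>
        intro i p q
        have := c2 j (by omega)
        rcases (Nat.lt_succ_iff.mp p).eq_or_lt with rfl | p
        · exact this
        · exact (ih i p (by omega)).trans this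
    have dN : d N = m := by simp [hd]
    have dlt : ∀ j, j < N → d j = c j := by intro j hj; simp [hd, hj]
    have d0 : d 0 = 0 := by rw [dlt 0 (by omega), c0]
    have d1 : ∀ j, j ≤ N → d j % 2 = j % 2 := by
      intro j hj
      rcases hj.eq_or_lt with rfl | hj
      · rw [dN]; exact c5
      · rw [dlt j hj]; exact c1 j hj.le
    have d2 : ∀ i j, i < j → j ≤ N → d i < d j := by
      intro i j p q
      rw [dlt i (by omega)]
      have := mono j i p q
      rcases q.eq_or_lt with rfl | q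
      · rw [dN]; omega
      · rw [dlt j q]; exact this
    have d3 : ∀ j, j ≤ N → Cut m h (d j) := by
      intro j hj
      rcases hj.eq_or_lt with rfl | hj
      · rw [dN]; exact cm
      · rw [dlt j hj]; exact c3 j hj.le
    obtain ⟨a, a1, a2, a3⟩ : ∃ a, a < N ∧ N ≤ a + 2 ∧ (a + N) % 3 ≠ 0 := by
      by_cases e : (N - 1 + N) % 3 = 0
      · exact ⟨N - 2, by omega, by omega, by omega⟩
      · exact ⟨N - 1, by omega, by omega, e⟩
    obtain ⟨f, f1, f2, f3, f4⟩ := stag d0 d1 d2 d3 dN N a a1 a2 le_rfl a3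
    have p1 := d1 a a1.le
    have p2 := d2 (N - 3) a (by omega) (by omega)
    have p3 := d2 a N a1 le_rfl
    rw [dN] at f1 f3 f4 p3
    obtain ⟨g, -, g2, -, g4⟩ := add (f := f) (lo := d a) (mid := m) (hi := m)
      (x := (d a + m) / 2) (r := max 1 ((m - d a) / 2)) (d3 a a1.le) cm le_rfl (by omega)
      le_rfl (by omega) (by omega)
      (by by_contra hc; have := f1 _ (Nat.pos_of_ne_zero hc); omega)
      (by omega) (by omega) f2 f3
    refine ⟨g, g2, ?_⟩
    rw [g4]; omega

end Pool.Agent.H.MP_888150_co
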