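import Mathlib
import Pool.Agent.H.MP_888150_co.A

namespace Pool.Agent.H.MP_888150_co

open Finset

variable {V : Type*} [Fintype V] {G : SimpleGraph V}

def IsP (G : SimpleGraph V) (m : ℕ) (v : ℕ → V) : Prop :=
  (∀ i j, i < m → j < m → v i = v j → i = j) ∧ ∀ i, i + 1 < m → G.Adj (v i) (v (i + 1))

lemma longest (hG : G.Connected) (hn : 2 ≤ Fintype.card V) :
    ∃ m v, 2 ≤ m ∧ IsP G m v ∧ ∀ k w, IsP G k w → k ≤ m := by
  classical
  have bd : ∀ k w, IsP G k w → k ≤ Fintype.card V := by
    intro k w hw
    have := card_le_card_of_injOn (s := range k) (t := (univ : Finset V)) w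
      (fun _ _ => mem_univ _)
      (fun i hi j hj e => hw.1 i j (mem_range.mp hi) (mem_range.mp hj) e)
    simpa using this
  have h2 : ∃ w, IsP G 2 w := by
    obtain ⟨a, b, hab⟩ := Fintype.exists_pair_of_one_lt_card (α := V) (by omega)
    obtain ⟨p⟩ := hG.preconnected a b
    cases p with
    | nil => exact absurd rfl hab
    | @cons _ c _ h _ =>
      refine ⟨fun i => if i = 0 then a else c, ?_, ?_⟩
      · intro i j hi hj e
        have hne := h.ne
        by_cases p : i = 0 <;> by_cases q : j = 0
        · omega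
        · simp only [p, q, if_true, if_false] at e; exact absurd e hne
        · simp only [p, q, if_true, if_false] at e; exact absurd e.symm hne
        · omega
      · intro i hi
        have : i = 0 := by omega
        subst this
        simpa using h
  obtain ⟨v, hv⟩ := Nat.findGreatest_spec (P := fun k => ∃ w, IsP G k w) hn h2
  exact ⟨_, v, Nat.le_findGreatest hn h2, hv,
    fun k w hw => Nat.le_findGreatest (bd k w hw) ⟨w, hw⟩⟩

omit [Fintype V] in
lemma chain_dist (hG : G.Connected) {v : ℕ → V} {m : ℕ}
    (hv : ∀ i, i + 1 < m → G.Adj (v i) (v (i + 1))) (i k : ℕ) (hk : i + k < m) :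
    G.dist (v i) (v (i + k)) ≤ k := by
  induction k with
  | zero => simp
  | succ k ih =>
    have h1 := ih (by omega)
    have h2 := SimpleGraph.dist_eq_one_iff_adj.mpr (hv (i + k) (by omega))
    have h3 := hG.dist_triangle (u := v i) (v := v (i + k)) (w := v (i + k + 1))
    rw [← add_assoc]; omega

lemma struct (hG : G.Connected) (hn : 2 ≤ Fintype.card V) :
    ∃ (m : ℕ) (v : ℕ → V) (h : ℕ → ℕ) (p : V → ℕ), 2 ≤ m ∧ IsP G m v ∧
      (∀ i, i < m → h i ≤ i ∧ i + h i < m) ∧ W h m ≤ Fintype.card V ∧
      ∀ u, p u < m ∧ G.dist u (v (p u)) ≤ h (p u) := by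
  classical
  obtain ⟨m, v, hm, hv, hmax⟩ := longest hG hn
  have hq : ∀ u : V, ∃ i, i < m ∧ ∀ j, j < m → G.dist u (v i) ≤ G.dist u (v j) := by
    intro u
    obtain ⟨i, hi, h⟩ := exists_min_image (range m) (fun i => G.dist u (v i))
      ⟨0, mem_range.mpr (by omega)⟩
    exact ⟨i, mem_range.mp hi, fun j hj => h j (mem_range.mpr hj)⟩
  choose q q1 q2 using hq
  obtain ⟨e, he⟩ : ∃ e : V → ℕ, ∀ u, e u = G.dist u (v (q u)) := ⟨_, fun _ => rfl⟩
  have e0 : ∀ u, e u = 0 → u = v (q u) := by
    intro u h
    rw [he] at h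
    exact hG.dist_eq_zero_iff.mp h
  have ev : ∀ i, i < m → e (v i) = 0 := by
    intro i hi
    have := q2 (v i) i hi
    rw [SimpleGraph.dist_self] at this
    rw [he]; omega
  have hpar : ∀ u, ∃ w, 0 < e u → G.Adj u w ∧ e w + 1 = e u := by
    intro u
    by_cases h : 0 < e u
    · obtain ⟨p, hp⟩ := hG.exists_walk_length_eq_dist u (v (q u))
      rw [← he] at hp
      have key : ∀ z (p : G.Walk u z), z = v (q u) → p.length = e u →
          ∃ w, G.Adj u w ∧ e w + 1 = e u := by
        intro z p hz hp
        cases p with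
        | nil => simp at hp; omega
        | @cons _ w _ hw p =>
          refine ⟨w, hw, ?_⟩
          have h1 := SimpleGraph.dist_le p
          have h2 := q2 w (q u) (q1 u)
          have h3 := q2 u (q w) (q1 w)
          have h4 := SimpleGraph.dist_eq_one_iff_adj.mpr hw
          have h5 := hG.dist_triangle (u := u) (v := w) (w := v (q w))
          rw [SimpleGraph.Walk.length_cons] at hp
          rw [← hz] at h2
          rw [← he] at h2 h3 h5
          omega
      obtain ⟨w, hw⟩ := key _ p rfl hp
      exact ⟨w, fun _ => hw⟩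
    · exact ⟨u, fun h' => absurd h' h⟩
  choose par hpar using hpar
  have it1 : ∀ u j, j ≤ e u → e (par^[j] u) + j = e u := by
    intro u j
    induction j with
    | zero => simp
    | succ j ih =>
      intro hj
      have h1 := ih (by omega)
      rw [Function.iterate_succ_apply']
      have := (hpar (par^[j] u) (by omega)).2
      omega
  have it2 : ∀ u j, j + 1 < e u + 1 → G.Adj (par^[j] u) (par^[j + 1] u) := by
    intro u j hj
    have h1 := it1 u j (by omega)
    rw [Function.iterate_succ_apply']
    exact (hpar (par^[j] u) (by omega)).1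
  obtain ⟨p, hp⟩ : ∃ p : V → ℕ, ∀ u, p u = q (par^[e u] u) := ⟨_, fun _ => rfl⟩
  have p1 : ∀ u, p u < m := fun u => by rw [hp]; exact q1 _
  have p2 : ∀ u, v (p u) = par^[e u] u := by
    intro u
    have := it1 u (e u) le_rfl
    rw [hp]; exact (e0 _ (by omega)).symm
  have p3 : ∀ u j, j ≤ e u → p (par^[j] u) = p u := by
    intro u j hj
    rw [hp, hp, ← Function.iterate_add_apply, it1 u j hj]
  have p4 : ∀ i, i < m → p (v i) = i := by
    intro i hi
    apply hv.1 _ _ (p1 _) hi
    rw [p2, ev i hi]; rfl
  have p5 : ∀ u, G.dist u (v (p u)) ≤ e u := by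
    intro u
    have := chain_dist hG (v := fun j => par^[j] u) (it2 u) 0 (e u) (by omega)
    rw [p2]
    simpa using this
  have ext : ∀ u k w, IsP G k w → (∀ j, j < k → e (w j) = 0) → w 0 = v (p u) → e u + k ≤ m := by
    intro u k w hw hw0 hw1
    apply hmax _ (fun j => if j < e u then par^[j] u else w (j - e u))
    constructor
    · intro i j hi hj h
      by_cases a : i < e u <;> by_cases b : j < e u <;> simp only [a, b, if_true, if_false] at h
      · have h1 := it1 u i a.le
        have h2 := it1 u j b.le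
        rw [h] at h1; omega
      · have h1 := it1 u i a.le
        have h2 := hw0 (j - e u) (by omega)
        rw [h] at h1; omega
      · have h1 := it1 u j b.le
        have h2 := hw0 (i - e u) (by omega)
        rw [← h] at h1; omega
      · have := hw.1 _ _ (by omega) (by omega) h
        omega
    · intro i hi
      by_cases a : i < e u <;> by_cases b : i + 1 < e u <;> simp only [a, b, if_true, if_false]
      · exact it2 u i (by omega)
      · have h1 : i + 1 - e u = 0 := by omega
        have h2 : e u = i + 1 := by omega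
        rw [h1, hw1, p2, h2]
        exact it2 u i (by omega)
      · omega
      · have h1 : i + 1 - e u = i - e u + 1 := by omega
        rw [h1]
        exact hw.2 _ (by omega)
  have b1 : ∀ u, e u ≤ p u := by
    intro u
    have hpu := p1 u
    have := ext u (m - p u) (fun j => v (p u + j))
      ⟨fun i j hi hj h => by have := hv.1 _ _ (by omega) (by omega) h; omega,
        fun i hi => hv.2 (p u + i) (by omega)⟩ (fun j hj => ev _ (by omega)) rfl
    omega
  have b2 : ∀ u, p u + e u < m := by
    intro u
    have hpu := p1 u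
    have := ext u (p u + 1) (fun j => v (p u - j))
      ⟨fun i j hi hj h => by have := hv.1 _ _ (by omega) (by omega) h; omega,
        fun i hi => by
          have h1 := hv.2 (p u - (i + 1)) (by omega)
          have h2 : p u - (i + 1) + 1 = p u - i := by omega
          rw [h2] at h1
          exact h1.symm⟩ (fun j hj => ev _ (by omega)) rfl
    omega
  have att : ∀ i, i < m → ∃ u, p u = i ∧ (univ.filter (fun u => p u = i)).sup e = e u := by
    intro i hi
    obtain ⟨u, hu, h⟩ := exists_mem_eq_sup (univ.filter (fun u => p u = i))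
      ⟨v i, mem_filter.mpr ⟨mem_univ _, p4 i hi⟩⟩ e
    exact ⟨u, (mem_filter.mp hu).2, h⟩
  refine ⟨m, v, fun i => (univ.filter (fun u => p u = i)).sup e, p, hm, hv, ?_, ?_, ?_⟩
  · intro i hi
    obtain ⟨u, h1, h2⟩ := att i hi
    have := b1 u
    have := b2 u
    simp only [h2]; omega
  · rw [← card_univ, card_eq_sum_card_fiberwise (f := p) (t := range m)
      (fun u _ => mem_coe.mpr (mem_range.mpr (p1 u)))]
    apply sum_le_sum
    intro i hi
    obtain ⟨u, h1, h2⟩ := att i (mem_range.mp hi)
    simp only [h2]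
    have := card_le_card_of_injOn (s := range (e u + 1))
      (t := univ.filter (fun u => p u = i)) (fun j => par^[j] u)
      (fun j hj => mem_coe.mpr (mem_filter.mpr ⟨mem_univ _, by
        rw [p3 u j (by have := mem_range.mp hj; omega), h1]⟩))
      (fun a ha b hb h => by
        have ha := mem_range.mp ha
        have hb := mem_range.mp hb
        have h3 := it1 u a (by omega)
        have h4 := it1 u b (by omega)
        simp only at h
        rw [h] at h3; omega)
    simpa using this
  · intro u
    refine ⟨p1 u, (p5 u).trans ?_⟩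
    exact le_sup (f := e) (mem_filter.mpr ⟨mem_univ _, rfl⟩)

theorem main (hG : G.Connected) (hn : 2 ≤ Fintype.card V) :
    ∃ f : V → ℕ, (∀ v, f v ≤ G.diam) ∧
      (∀ u, ∃ v₁ v₂, v₁ ≠ v₂ ∧ 0 < f v₁ ∧ 0 < f v₂ ∧ G.dist u v₁ ≤ f v₁ ∧ G.dist u v₂ ≤ f v₂) ∧
      3 * ∑ v, f v ≤ 2 * Fintype.card V + 4 := by
  classical
  obtain ⟨m, v, h, p, hm, hv, hh, hW, hp⟩ := struct hG hn
  obtain ⟨f, f1, f2⟩ := line hm hh
  have : Nontrivial V := Fintype.one_lt_card_iff_nontrivial.mp (by omega)
  have hd : G.diam ≠ 0 := SimpleGraph.connected_iff_diam_ne_zero.mp hG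
  have hd2 : ∀ a b, G.dist a b ≤ G.diam := fun a b =>
    SimpleGraph.dist_le_diam (SimpleGraph.ediam_ne_top_of_diam_ne_zero hd)
  have hle : ∀ x, x < m → f x ≤ ∑ y ∈ range m, if v y = v x then f y else 0 := by
    intro x hx
    have := single_le_sum (f := fun y => if v y = v x then f y else 0) (s := range m)
      (fun _ _ => Nat.zero_le _) (mem_range.mpr hx)
    simpa using this
  have hear : ∀ u x, x < m → Hr h f (p u) x → G.dist u (v x) ≤ f x := by
    intro u x hx ⟨_, a, b⟩
    have h1 := hG.dist_triangle (u := u) (v := v (p u)) (w := v x)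
    have h2 := (hp u).2
    have h3 := (hp u).1
    rcases le_total x (p u) with c | c
    · have h4 := chain_dist hG hv.2 x (p u - x) (by omega)
      rw [Nat.add_sub_cancel' c, SimpleGraph.dist_comm] at h4
      omega
    · have h4 := chain_dist hG hv.2 (p u) (x - p u) (by omega)
      rw [Nat.add_sub_cancel' c] at h4
      omega
  refine ⟨fun z => min (∑ y ∈ range m, if v y = z then f y else 0) G.diam,
    fun _ => min_le_right _ _, ?_, ?_⟩
  · intro u
    obtain ⟨x, y, hx, hy, hxy, a, b⟩ := f1 (p u) (hp u).1
    refine ⟨v x, v y, fun e => hxy (hv.1 _ _ hx hy e), ?_, ?_, ?_, ?_⟩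
    · exact lt_min (a.1.trans_le (hle x hx)) (Nat.pos_of_ne_zero hd)
    · exact lt_min (b.1.trans_le (hle y hy)) (Nat.pos_of_ne_zero hd)
    · exact le_min ((hear u x hx a).trans (hle x hx)) (hd2 _ _)
    · exact le_min ((hear u y hy b).trans (hle y hy)) (hd2 _ _)
  · have h1 : ∑ z, min (∑ y ∈ range m, if v y = z then f y else 0) G.diam ≤
        ∑ z, ∑ y ∈ range m, if v y = z then f y else 0 :=
      sum_le_sum (fun _ _ => min_le_left _ _)
    rw [sum_comm] at h1
    simp only [sum_ite_eq, mem_univ, if_true] at h1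
    beta_reduce
    omega

end Pool.Agent.H.MP_888150_co
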